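import Pool.Agent.H19.KN.Targets

/-!
# NETAS: the norm of a simple extension with given generator
-/

set_option autoImplicit false

namespace Pool.Agent.H46.KN

open Pool.Agent.H62.MK Pool.Agent.H19.KN Polynomial Function

universe u

/-- integral closures under `K`-homomorphisms -/
theorem icl_map {K : Type u} [Field K] (O : Subring K) {E E' : Type u} [Field E] [Field E']
    [Algebra K E] [Algebra K E'] (φ : E →ₐ[K] E') (a : E) (ha : a ∈ icl O E) :
    φ a ∈ icl O E' := by
  have h1 : IsIntegral O a := ha
  show IsIntegral O (φ a)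
  refine h1.map_of_comp_eq (RingHom.id O) φ.toRingHom ?_
  ext c
  exact (φ.commutes (c : K)).symm

theorem pf_NETAS (hP : T_NETAP.{u}) (hU : T_UMAP.{u}) (_hG : T_GOODE.{u}) : T_NETAS.{u} := by
  classical
  intro K _ _ O π q E n hO hIC hq hn L _ _ x m y hy
  unfold simpleNorm
  by_cases h : IsIntegral K x
  · rw [dif_pos h]
    haveI : Fact (Irreducible (minpoly K x)) := ⟨minpoly.irreducible h⟩
    have h1 := hU (IntermediateField.adjoin K {x}) (AdjoinRoot (minpoly K x))
      ((IntermediateField.adjoinRootEquivAdjoin K h).symm : _ ≃+* _).toRingHom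
      (icl O (IntermediateField.adjoin K {x})) (icl O (AdjoinRoot (minpoly K x)))
      (algebraMap K (IntermediateField.adjoin K {x}) π) q n
      (fun a ha => icl_map O (IntermediateField.adjoinRootEquivAdjoin K h).symm.toAlgHom a ha) m y hy
    have h2 : ((IntermediateField.adjoinRootEquivAdjoin K h).symm : _ ≃+* _).toRingHom
        (algebraMap K (IntermediateField.adjoin K {x}) π) =
        algebraMap K (AdjoinRoot (minpoly K x)) π :=
      (IntermediateField.adjoinRootEquivAdjoin K h).symm.commutes π
    rw [h2] at h1
    exact hP K O π q E n hO hIC hq hn ⟨minpoly K x, minpoly.monic h, minpoly.irreducible h⟩ m _ h1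
  · rw [dif_neg h]
    exact (USub q π n O m).zero_mem

end Pool.Agent.H46.KN
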