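import Pool.Agent.H19.KN.Targets

/-!
# NETAT: the norm along a tower
-/

set_option autoImplicit false

namespace Pool.Agent.H46.KN

open Pool.Agent.H62.MK Pool.Agent.H19.KN Polynomial Function

universe u

theorem pf_NETAT (hS : T_NETAS.{u}) (hU : T_UMAP.{u}) (hG : T_GOODE.{u}) : T_NETAT.{u} := by
  classical
  intro E _ _ l
  induction l with
  | nil =>
    intro K _ _ halg O π q e n hO hIC hq hn m y hy
    unfold towerNorm
    by_cases h : Function.Bijective (algebraMap K E)
    · rw [dif_pos h]
      obtain ⟨-, -, -, hG4, -⟩ := hG K O π q e hO E halg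
      have h3 : ∀ a : E, algebraMap K E ((RingEquiv.ofBijective (algebraMap K E) h).symm a) = a :=
        fun a => (RingEquiv.ofBijective (algebraMap K E) h).apply_symm_apply a
      have h1 := hU E K (RingEquiv.ofBijective (algebraMap K E) h).symm.toRingHom (icl O E) O
        (algebraMap K E π) q n (fun a ha => hG4 hIC _ (by
          have : algebraMap K E ((RingEquiv.ofBijective (algebraMap K E) h).symm.toRingHom a) = a :=
            h3 a
          rw [this]; exact ha)) m y hy
      have h2 : (RingEquiv.ofBijective (algebraMap K E) h).symm.toRingHom (algebraMap K E π) = π :=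
        (RingEquiv.ofBijective (algebraMap K E) h).symm_apply_apply π
      rw [h2] at h1
      exact h1
    · rw [dif_neg h]
      exact (USub q π n O m).zero_mem
  | cons x l ih =>
    intro K _ _ halg O π q e n hO hIC hq hn m y hy
    show simpleNorm K x m (towerNorm m l (IntermediateField.adjoin K {x}) y) ∈ USub q π n O m
    have hcK : CharZero K := (algebraMap K E).charZero
    have halg1 : Algebra.IsAlgebraic K (IntermediateField.adjoin K {x}) :=
      Algebra.IsAlgebraic.tower_bot K (IntermediateField.adjoin K {x}) E
    have halg2 : Algebra.IsAlgebraic (IntermediateField.adjoin K {x}) E :=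
      Algebra.IsAlgebraic.tower_top (K := K) (IntermediateField.adjoin K {x})
    obtain ⟨g1, g2, -, -, g5⟩ := hG K O π q e hO (IntermediateField.adjoin K {x}) halg1
    refine hS K O π q e n hO hIC hq hn E x m _ ?_
    refine ih (IntermediateField.adjoin K {x}) halg2 _ _ q e n g1 g2 hq hn m y ?_
    rw [g5 E, ← IsScalarTower.algebraMap_apply]
    exact hy

end Pool.Agent.H46.KN
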